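import Pool.Agent.MP_96f5a9_co.gw.One

/-! The four cases of the proof of Wilf's inequality, with their constants exposed. -/

set_option autoImplicit false

namespace Pool.Agent.MP_96f5a9_co.H47

section

open Finset H51 H16 H59 H80 WA

open WA.CaseH in
/-- Bounded depth in terms of the median. -/
theorem xH (c D B : ℕ) (hB : B = 96 * (4 * D + 32 * D * c))
    (ι : Type) [Fintype ι] [DecidableEq ι] (g : ι → ℕ) (T : Finset (ι → ℕ))
    (m F s : ℕ) (h : Md g T m F) (hp : 2 ≤ Fintype.card ι)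
    (hm : (Fintype.card ι + 1) ^ (B + 8 * D + 1 + 1) ≤ m) (hs : Med g s)
    (hc : F + m ≤ c * (Fintype.card ι * m)) (hD : F + m ≤ D * s) : Wilf g T m F := by
  have hz : ZeroStmt := zero
  by_contra hW
  have m0 := h.pos
  have a1 := card_le_pow (B + 8 * D + 1) (T.filter fun z => dg z ≤ B + 8 * D + 1)
    fun x hx => (mem_filter.1 hx).2
  have a2 : (Fintype.card ι + 1) ^ (B + 8 * D + 1) * 3 ≤ m :=
    (Nat.mul_le_mul_left _ (by omega)).trans ((pow_succ _ _).ge.trans hm)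
  have a3 : 3 ≤ (Fintype.card ι + 1) ^ (B + 8 * D + 1) :=
    le_trans (by omega) (Nat.le_self_pow (Nat.succ_ne_zero _) _)
  rcases lt_or_ge s (8 * m) with cs | cs
  · rw [filter_true_of_mem fun x hx => ?_, h.card] at a1
    · omega
    · have b1 : dg x * m ≤ wt g x := dp_mul_le h.le univ x
      have b2 := h.top x hx
      have b3 : D * s ≤ D * (8 * m) := Nat.mul_le_mul_left _ cs.le
      have b4 : dg x * m ≤ 8 * D * m := by linarith
      have := Nat.le_of_mul_le_mul_right b4 m0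
      omega
  obtain ⟨U, hU, eU⟩ := partner h hs
  obtain ⟨S, eS⟩ : ∃ S, S = univ.filter fun i => 4 * g i ≤ s := ⟨_, rfl⟩
  rw [← eS] at eU
  have mS : ∀ i, i ∈ S ↔ 4 * g i ≤ s := fun i => by simp [eS]
  obtain ⟨Δ, d0, -, -, d3⟩ := hz ι g T m F s S U h cs (fun i => (mS i).1) hU eU
  obtain ⟨w1, w2⟩ := not_wilf hW
  have mr : (0 : ℝ) < m := Nat.cast_pos.2 m0
  have sr : (0 : ℝ) < s := Nat.cast_pos.2 (by omega)
  have n1 : ∑ z ∈ T, aa g (F + m) m z ≤ c * m := by
    rw [← cast_n]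
    have : Fintype.card ι * ∑ x ∈ T, (F + m - wt g x) / m ≤ Fintype.card ι * (c * m) := by
      rw [mul_left_comm]
      exact w2.trans hc
    exact_mod_cast Nat.le_of_mul_le_mul_left this (by omega)
  have n0 : 0 ≤ ∑ z ∈ T, aa g (F + m) m z := sum_nonneg fun z _ => aa_nonneg z
  have e1 : ∀ z ∈ T, dp Sᶜ z ≤ 4 * D := fun z hz => by
    have b1 := dp_large (g := g) (s := s) Sᶜ (fun i hi => by
      have : ¬ 4 * g i ≤ s := fun e => mem_compl.1 hi ((mS i).2 e)
      omega) z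
    have b2 := h.top z hz
    have b3 : dp Sᶜ z * s ≤ 4 * D * s := by linarith
    exact Nat.le_of_mul_le_mul_right b3 (by omega)
  have e2 : ∑ z ∈ T, (dp Sᶜ z : ℝ) ≤ 4 * D * m := by
    have := sum_le_card_nsmul T (fun z => (dp Sᶜ z : ℝ)) (4 * D) fun z hz => by
      exact_mod_cast e1 z hz
    rwa [h.card, nsmul_eq_mul, mul_comm] at this
  have e3 : 32 * ((F + m : ℕ) : ℝ) * (∑ z ∈ T, aa g (F + m) m z) / s ≤ 32 * D * c * m := by
    rw [div_le_iff₀ sr]
    have b1 : ((F + m : ℕ) : ℝ) ≤ D * s := by exact_mod_cast hD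
    have b2 := mul_le_mul b1 n1 n0 (by positivity)
    linarith
  have e4 : (1 / 2 : ℝ) * B * m ≤ ∑ z ∈ T, min (wp g S z / m : ℝ) B := by
    have b1 : ∑ z ∈ T, (B : ℝ) ≤ ∑ z ∈ T, (min (wp g S z / m : ℝ) B +
        if dg z ≤ B + 8 * D + 1 then (B : ℝ) else 0) := by
      refine sum_le_sum fun z hz => ?_
      split_ifs with cz
      · exact le_add_of_nonneg_left (le_min (by positivity) (by positivity))
      · rw [add_zero]
        refine le_min ((le_div_iff₀ mr).2 ?_) le_rfl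
        have b2 := dp_compl S z
        have b3 := e1 z hz
        have b4 := (Nat.mul_le_mul_right m (show B ≤ dp S z by omega)).trans (dp_mul_le h.le S z)
        exact_mod_cast b4
    rw [sum_add_distrib, ← sum_filter, sum_const, sum_const, h.card, nsmul_eq_mul,
      nsmul_eq_mul] at b1
    have b5 : (((T.filter fun z => dg z ≤ B + 8 * D + 1).card : ℕ) : ℝ) * 2 ≤ m := by
      exact_mod_cast (show (T.filter fun z => dg z ≤ B + 8 * D + 1).card * 2 ≤ m by omega)
    have b6 := mul_le_mul_of_nonneg_right b5 (Nat.cast_nonneg B)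
    linarith
  have e5 := (rearr h (fun z => min (wp g S z / m : ℝ) B) (B := B) (β := 1 / 2) (by norm_num)
    (by have : (8 : ℝ) ≤ m := by exact_mod_cast (show 8 ≤ m by omega)
        linarith)
    (fun z _ => le_min (by positivity) (by positivity)) (fun z _ => min_le_right _ _) e4).1
  have e6 : ∑ z ∈ T, ll g (F + m) m z * min (wp g S z / m : ℝ) B ≤
      ∑ z ∈ T, ll g (F + m) m z * (wp g S z / m) :=
    sum_le_sum fun z _ => mul_le_mul_of_nonneg_left (min_le_left _ _) (ll_nonneg z)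
  have e7 : (B : ℝ) * m = 96 * (4 * D * m + 32 * D * c * m) := by
    rw [hB]
    push_cast
    ring
  rw [← sum_div, Nat.cast_add] at d3
  rw [Nat.cast_add] at e3
  linarith

/-- Large median. -/
theorem xIII (c K : ℕ)
    (ι : Type) [Fintype ι] [DecidableEq ι] (g : ι → ℕ) (T : Finset (ι → ℕ))
    (m F s : ℕ) (h : Md g T m F) (hp : 128 * (K + 1) ≤ Fintype.card ι) (hpm : Fintype.card ι ≤ m)
    (hs : Med g s) (hc : F + m ≤ c * (Fintype.card ι * m))
    (hG : 2 ^ 22 * ((c + 1) * (K + 1) ^ 2) * m ≤ s) (hD : 1 * s ≤ F + m)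
    (hK : F + m ≤ K * ∑ i, Ad g T (F + m) m i) : Wilf g T m F := by
  have hz : ZeroStmt := zero
  by_contra hw
  obtain ⟨w1, w2⟩ := not_wilf hw
  have hm := h.pos
  have hk1 : 1 ≤ (K + 1) ^ 2 := Nat.one_le_pow _ _ (Nat.succ_pos _)
  have hck : (K + 1) ^ 2 ≤ (c + 1) * (K + 1) ^ 2 := Nat.le_mul_of_pos_left _ (Nat.succ_pos _)
  have hkm := Nat.mul_le_mul_right m hk1
  have hckm := Nat.mul_le_mul_right m hck
  set S := univ.filter fun i => g i < 2 ^ 17 * (K + 1) ^ 2 * m with hS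
  have hSU : S.card ≤ (univ.filter fun i => s ≤ g i).card := by
    have a1 := card_filter_add_card_filter_not (s := univ) fun i => s ≤ g i
    have a2 : S.card ≤ (univ.filter fun i => ¬ s ≤ g i).card :=
      card_le_card fun i hi => mem_filter.2 ⟨mem_univ _, not_le.2 (by
        have := (mem_filter.1 hi).2
        linarith only [this, hG, hckm, Nat.zero_le ((K + 1) ^ 2 * m)])⟩
    have a3 := hs.2
    rw [card_univ] at a1
    omega
  obtain ⟨U, hU, hUc⟩ := exists_subset_card_eq hSU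
  obtain ⟨Δ, d0, d1, d2, d3⟩ := hz ι g T m F (2 ^ 22 * ((c + 1) * (K + 1) ^ 2) * m) S U h
    (by linarith only [hkm, hckm, Nat.zero_le m])
    (fun i hi => by
      have := (mem_filter.1 hi).2
      linarith only [this, hckm, Nat.zero_le ((K + 1) ^ 2 * m)])
    (fun i hi => hG.trans (mem_filter.1 (hU hi)).2) hUc.symm
  have e1 := sum_dp_le h Sᶜ (2 ^ 17 * (K + 1) ^ 2) fun i hi => by
    have := mem_compl.1 hi
    rw [hS, mem_filter] at this
    exact not_lt.1 fun c => this ⟨mem_univ _, c⟩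
  have e2 := lines_le h S
  have e3 := H36.top_le hm h.le h.down h.card h.top
  have e4 : ∑ x ∈ T, (F + m - wt g x) / m ≤ c * m :=
    Nat.le_of_mul_le_mul_left (by linarith only [w2, hc]) (show 0 < Fintype.card ι by omega)
  have e5 : 4 * m ≤ F + m := by linarith only [hD, hG, hkm, hckm, Nat.zero_le m]
  have e6 : F + m ≤ (K + 1) * ∑ i, Ad g T (F + m) m i :=
    hK.trans (Nat.mul_le_mul_right _ (Nat.le_succ _))
  have e7 : ∑ x ∈ T, (F + m - wt g x) / m ≤ Fintype.card ι * ∑ x ∈ T, (F + m - wt g x) / m :=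
    Nat.le_mul_of_pos_left _ (by omega)
  have e8 : F + m ≤ 4 * (Fintype.card ι * ∑ x ∈ T, (F + m - wt g x) / m) := by
    linarith only [e3, e5, e7]
  have hm' : (0 : ℝ) < m := Nat.cast_pos.2 hm
  have hk : (1 : ℝ) ≤ (K : ℝ) + 1 := by simp
  have hL0 : 0 ≤ ∑ z ∈ T, ll g (F + m) m z * ((wp g S z : ℝ) / m) :=
    sum_nonneg fun z _ => mul_nonneg (ll_nonneg z) (by positivity)
  have hre : ((F + m : ℕ) : ℝ) ≤ 32 * ((K : ℝ) + 1) * ((∑ z ∈ T, wp g S z : ℕ) / m) →
      ((F + m : ℕ) : ℝ) ≤ 2 ^ 13 * ((K : ℝ) + 1) ^ 2 *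
        ∑ z ∈ T, ll g (F + m) m z * ((wp g S z : ℝ) / m) := by
    intro hW
    have b1 : ((128 * (K + 1) : ℕ) : ℝ) ≤ m := Nat.cast_le.2 (hp.trans hpm)
    push_cast at b1
    have := (rearr h (fun z => (wp g S z : ℝ) / m) (B := ((F + m : ℕ) : ℝ) / m)
      (β := 1 / (32 * ((K : ℝ) + 1))) (by positivity)
      (by rw [one_div_mul_eq_div, le_div_iff₀ (by positivity)]; linarith only [b1])
      (fun z _ => by positivity)
      (fun z hz => div_le_div_of_nonneg_right
        (Nat.cast_le.2 ((wp_le_wt S z).trans (h.top z hz))) hm'.le)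
      (by
        rw [mul_assoc, div_mul_cancel₀ _ hm'.ne', one_div_mul_eq_div, div_le_iff₀ (by positivity),
          ← sum_div, ← Nat.cast_sum]
        linarith only [hW])).1
    rw [mul_assoc, div_mul_cancel₀ _ hm'.ne', div_pow, one_pow, one_div_mul_eq_div, div_div,
      div_le_iff₀ (by positivity)] at this
    linarith only [this]
  rw [← sum_div, ← cast_n, ← Nat.cast_sum T (dp Sᶜ)] at d3
  rw [← cast_n] at d1 w1
  rw [hUc] at d1
  generalize ∑ z ∈ T, ll g (F + m) m z * ((wp g S z : ℝ) / m) = L at *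
  generalize ∑ x ∈ T, (F + m - wt g x) / m = n at *
  generalize ∑ z ∈ T, wp g S z = W at *
  generalize ∑ z ∈ T, dp Sᶜ z = E at *
  generalize ∑ i ∈ S, Ad g T (F + m) m i = B at *
  generalize ∑ i, Ad g T (F + m) m i = A at *
  generalize S.card = q at *
  generalize Fintype.card ι = p at *
  have f0 : (F : ℝ) = (F + m : ℕ) - m := by simp
  rw [f0] at w1
  generalize F + m = M at *
  have f1 : (2 : ℝ) ^ 17 * ((K : ℝ) + 1) ^ 2 * E ≤ M := by exact_mod_cast e1
  have f2 : (q : ℝ) * (m * n) ≤ m * B + 2 * W := by exact_mod_cast e2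
  have f4 : (n : ℝ) ≤ c * m := by exact_mod_cast e4
  have f6 : (M : ℝ) ≤ ((K : ℝ) + 1) * A := by exact_mod_cast e6
  have f8 : (M : ℝ) ≤ 4 * (p * n) := by exact_mod_cast e8
  have f9 : (p : ℝ) * n ≤ M := by exact_mod_cast w2
  have hM : (0 : ℝ) ≤ M := Nat.cast_nonneg _
  have hn : (0 : ℝ) ≤ n := Nat.cast_nonneg _
  have g1 : 2 ^ 17 * ((K : ℝ) + 1) ^ 2 *
      (32 * (M : ℝ) * n / (2 ^ 22 * ((c + 1) * (K + 1) ^ 2) * m : ℕ)) ≤ M := by
    push_cast
    rw [← mul_div_assoc, div_le_iff₀ (by positivity)]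
    have := mul_le_mul_of_nonneg_left (f4.trans (show (c : ℝ) * m ≤ (c + 1) * m by linarith))
      (show 0 ≤ 2 ^ 22 * ((K : ℝ) + 1) ^ 2 * M by positivity)
    linarith only [this]
  generalize 32 * (M : ℝ) * n / (2 ^ 22 * ((c + 1) * (K + 1) ^ 2) * m : ℕ) = R at *
  generalize (K : ℝ) + 1 = k at *
  have hk2 : k ≤ k ^ 2 := by nlinarith
  have g2 : 2 ^ 17 * k ^ 2 * (L / 3 + Δ) < 2 * M := by
    have := mul_lt_mul_of_pos_left (show L / 3 + Δ < E + R by linarith only [d3, w1, hm'])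
      (show 0 < 2 ^ 17 * k ^ 2 by positivity)
    linarith only [this, f1, g1]
  have g3 := mul_nonneg (show 0 ≤ k ^ 2 by positivity) hL0
  have g4 := mul_nonneg (show 0 ≤ k ^ 2 by positivity) d0
  have g5 := mul_le_mul_of_nonneg_right hk2 d0
  rcases le_total (2 * k * q) p with c1 | c1
  · have a1 := mul_le_mul_of_nonneg_right c1 hn
    have a2 := mul_le_mul_of_nonneg_left d1 (show 0 ≤ k by linarith)
    linarith only [a1, a2, f6, f9, g2, g3, g4, g5, hM]
  · rcases le_total (M : ℝ) (32 * k * (W / m)) with c2 | c2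
    · linarith only [hre c2, g2, g3, g4, hM]
    · have a1 := mul_le_mul_of_nonneg_right c1 hn
      have a2 : (q : ℝ) * n ≤ B + 2 * (W / m) := by
        refine le_of_mul_le_mul_left ?_ hm'
        rw [mul_add, mul_left_comm (m : ℝ) 2, mul_div_cancel₀ _ hm'.ne']
        linarith only [f2]
      have a3 := mul_le_mul_of_nonneg_left (a2.trans (add_le_add d2 le_rfl))
        (show 0 ≤ k by linarith)
      linarith only [a1, a3, c2, f8, g2, g3, g4, g5, hM]

end

open Finset Function H51 H16 H59 H93 H80 WA H36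

/-- Bounded median. -/
theorem xI (c K G E R : ℕ) (hE : E = 294912 * K ^ 3) (hR : R = 2 * (c + 1) * E)
    (ι : Type) [Fintype ι] [DecidableEq ι] (g : ι → ℕ) (T : Finset (ι → ℕ))
    (m F s : ℕ) (hd : Md g T m F) (hp : 3 * E + 1 ≤ Fintype.card ι) (hpm : Fintype.card ι ≤ m)
    (hs : Med g s) (hc : F + m ≤ c * (Fintype.card ι * m)) (hG : s ≤ G * m)
    (hD : (144 * ((G * (R + 1) ^ R) ^ 3 * E ^ 3) + R) * s ≤ F + m)
    (hA : F + m ≤ K * ∑ i, Ad g T (F + m) m i) : Wilf g T m F := by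
  by_contra hW
  have hn := (not_wilf hW).2
  have m0 := hd.pos
  have hms : m ≤ s := by
    obtain ⟨i, hi⟩ := card_pos.1 (show 0 < (univ.filter fun i => g i ≤ s).card by
      have := hs.1; omega)
    exact (hd.le i).trans (mem_filter.1 hi).2
  have hK : 1 ≤ K := Nat.pos_of_ne_zero fun e => by rw [e] at hA; omega
  have hG1 : 1 ≤ G := Nat.pos_of_ne_zero fun e => by rw [e] at hG; omega
  have E1 : 0 < E := by rw [hE]; positivity
  have R1 : 1 ≤ R := by rw [hR]; exact Nat.mul_pos (by omega) E1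
  have hn1 : ∑ x ∈ T, (F + m - wt g x) / m ≤ c * m := by
    refine Nat.le_of_mul_le_mul_left (hn.trans (hc.trans (le_of_eq ?_))) (by omega : 0 < _)
    ring
  have hn2 : ∑ z ∈ T, aa g (F + m) m z ≤ c * m := by rw [← cast_n]; exact_mod_cast hn1
  have hn3 : Fintype.card ι * ∑ z ∈ T, aa g (F + m) m z ≤ (F + m : ℕ) := by
    rw [← cast_n]; exact_mod_cast hn
  have h1 : ∀ j ∈ range R, 8 * (((F + m : ℕ) : ℝ) / E) ≤
      cost g T m (F + m) (G * (R + 1) ^ j) (G * (R + 1) ^ j * (R + 1)) := fun j hj => by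
    have a1 : G * 1 ≤ G * (R + 1) ^ j := Nat.mul_le_mul_left _ (Nat.one_le_pow _ _ (by omega))
    have a2 : G * (R + 1) ^ j * (R + 1) ≤ G * (R + 1) ^ R := by
      rw [mul_assoc, ← pow_succ]
      exact Nat.mul_le_mul_left _ (Nat.pow_le_pow_right (by omega) (mem_range.1 hj))
    have := scale hd hK hE (by omega : 1 ≤ G * (R + 1) ^ j) hR (by omega) (by omega)
      (hs.1.trans (Nat.mul_le_mul_left _ (card_le_card fun i hi => mem_filter.2 ⟨mem_univ _,
        (mem_filter.1 hi).2.trans (hG.trans (Nat.mul_le_mul_right _ (by omega)))⟩)))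
      hn2 ((Nat.mul_le_mul_left _ hms).trans hD)
      ((Nat.mul_le_mul_left _ (Nat.mul_le_mul_right _ (Nat.pow_le_pow_left a2 3))).trans
        (Nat.le_add_right _ _)) (Nat.le_add_left _ _) hA
    linarith
  have h2 := (sum_le_sum h1).trans (pigeon R1)
  rw [sum_const, card_range, nsmul_eq_mul] at h2
  have E0 : (0 : ℝ) < E := Nat.cast_pos.2 E1
  have m1 : (0 : ℝ) < m := Nat.cast_pos.2 m0
  have M0 : (0 : ℝ) < (F + m : ℕ) := Nat.cast_pos.2 (by omega)
  have e1 : (R : ℝ) * (8 * (((F + m : ℕ) : ℝ) / E)) = 16 * (c + 1) * (F + m : ℕ) := by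
    rw [hR]; push_cast; field_simp; ring
  have e2 : 2 * (((F + m : ℕ) : ℝ) / m) * (c * m) = 2 * c * (F + m : ℕ) := by field_simp
  have h3 := mul_le_mul_of_nonneg_left hn2 (by positivity : 0 ≤ 2 * (((F + m : ℕ) : ℝ) / m))
  have h4 : 0 ≤ (c : ℝ) * (F + m : ℕ) := by positivity
  linarith

/-- Small spread and small density. -/
theorem xII (c Q A t k : ℕ) (hQ : 2 ^ 24 * (2 ^ 87 * (c + 1) ^ 3) ≤ Q) (hA : A = 64 * 2 ^ Q)
    (ht : t = A * Q) (hk : k = Q * ((3 * A * t ^ 2 + 3 * A) * (2 * t + 2)))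
    (ι : Type) [Fintype ι] [DecidableEq ι] (g : ι → ℕ) (T : Finset (ι → ℕ))
    (m F s : ℕ) (md : Md g T m F) (hp : 2 * k ≤ Fintype.card ι) (hm : Fintype.card ι ^ 2 ≤ m)
    (hmed : Med g s) (hc : F + m ≤ c * (Fintype.card ι * m)) (hD : (2 * t + 2) * s ≤ F + m)
    (he : 2 * k * ∑ i, ds g s m i ≤ Fintype.card ι * m)
    (hτ : 2 * k * (F + m) ≤ Fintype.card ι * s) : Wilf g T m F := by
  have hQ0 : 0 < Q := lt_of_lt_of_le (by positivity) hQ
  have hA0 : 0 < A := by rw [hA]; positivity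
  have ht0 : 0 < t := by rw [ht]; positivity
  have hk1 : Q * (A * A) ≤ k ∧ 3 * Q ≤ k ∧ 2 * A ≤ k := by
    have a1 : A ≤ t := ht ▸ Nat.le_mul_of_pos_right _ hQ0
    have a2 : A * A ≤ (3 * A * t ^ 2 + 3 * A) * (2 * t + 2) := Nat.mul_le_mul (by omega) (by omega)
    have a3 : 3 * 1 ≤ (3 * A * t ^ 2 + 3 * A) * (2 * t + 2) := Nat.mul_le_mul (by omega) (by omega)
    have a4 : 2 * A ≤ (3 * A * t ^ 2 + 3 * A) * (2 * t + 2) :=
      (mul_comm _ _).trans_le (Nat.mul_le_mul (by omega) (by omega))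
    rw [hk]
    exact ⟨Nat.mul_le_mul_left _ a2, (mul_comm _ _).trans_le (Nat.mul_le_mul_left _ a3),
      a4.trans (Nat.le_mul_of_pos_left _ hQ0)⟩
  have hp0 : 0 < Fintype.card ι := by omega
  have hpm : Fintype.card ι ≤ m := (Nat.le_self_pow (by norm_num) _).trans hm
  obtain ⟨e, he'⟩ : ∃ e, e = (∑ i, ds g s m i) / Fintype.card ι + 1 := ⟨_, rfl⟩
  have e1 : ∑ i, ds g s m i ≤ Fintype.card ι * e := he' ▸ (Nat.lt_mul_div_succ _ hp0).le
  have e2 : Fintype.card ι * e ≤ ∑ i, ds g s m i + Fintype.card ι := by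
    rw [he', mul_add, mul_one]
    exact Nat.add_le_add_right (Nat.mul_div_le _ _) _
  have e3 : k * e ≤ m := by
    refine Nat.le_of_mul_le_mul_left ?_ hp0
    linarith only [Nat.mul_le_mul_left k e2, he, Nat.mul_le_mul_left (Fintype.card ι) (hp.trans hpm)]
  have e4 : ∀ j ∈ range Q, 64 * e * 2 ^ j ≤ A * e := fun j hj => by
    rw [hA, mul_right_comm]
    exact Nat.mul_le_mul_right _ (Nat.mul_le_mul_left _
      (Nat.pow_le_pow_right (by norm_num) (mem_range.1 hj).le))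
  have e5 : 2 * A * e ≤ m := (Nat.mul_le_mul_right _ hk1.2.2).trans e3
  have e0 : 0 < e := he' ▸ Nat.succ_pos _
  have e6 : 0 < A * e := Nat.mul_pos hA0 e0
  rw [mul_assoc] at e5
  obtain ⟨j, hj, r2⟩ := exists_le_of_sum_le (s := range Q) ⟨0, mem_range.2 hQ0⟩
    (f := fun j => Q * ((Nr g s (64 * e * 2 ^ j))ᶜ.card * (64 * e * 2 ^ j)))
    (g := fun _ => 2 * ∑ i, ds g s m i) (by
      rw [← mul_sum, sum_const, card_range, smul_eq_mul]
      refine Nat.mul_le_mul_left _ ?_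
      rw [mul_sum]
      refine le_trans (sum_le_sum fun j hj => ?_) (sum_comm.trans_le
        (sum_le_sum fun i _ => (geo (64 * e) (ds g s m i) Q).2))
      rw [← sum_filter, sum_const, smul_eq_mul]
      refine Nat.mul_le_mul_right _ (card_le_card fun i hi => mem_filter.2 ⟨mem_univ _, ?_⟩)
      have := e4 j hj
      simp only [Nr, mem_compl, mem_filter, mem_univ, true_and] at hi
      unfold ds
      omega)
  have r0 := e4 j hj
  have r1 : 64 * e ≤ 64 * e * 2 ^ j := Nat.le_mul_of_pos_right _ (by positivity)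
  generalize 64 * e * 2 ^ j = R at *
  refine scales md hmed hp0 hpm hc hQ e0 e1 e2 r1 r2 (t := t) ?_ ?_ ?_ ?_ hD ?_
  · rw [ht]; linarith only [Nat.mul_le_mul_left Q r0]
  · linarith only [Nat.mul_le_mul_left Q (Nat.mul_le_mul r0 r0),
      Nat.mul_le_mul_right (e * e) hk1.1, Nat.mul_le_mul_left e e3]
  · refine le_trans ?_ e3
    calc _ ≤ Q * ((3 * (A * e) * t ^ 2 + 3 * (A * e)) * (2 * t + 2)) := by gcongr
      _ = _ := by rw [hk]; ring
  · refine Nat.add_le_add_right (Nat.div_le_of_le_mul ?_) _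
    rw [ht]
    linarith only [r0, Nat.mul_le_mul_left A (Nat.lt_mul_div_succ e hQ0).le]
  · linarith only [hτ, Nat.mul_le_mul_right (F + m) hk1.2.1, Nat.zero_le (k * (F + m))]

end Pool.Agent.MP_96f5a9_co.H47
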