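import Mathlib.Tactic.Ring
import Mathlib.Tactic.Linarith
import Mathlib.Tactic.NormNum
import Mathlib.Data.Nat.Log

/-! Bounds for the constants. -/

set_option autoImplicit false

namespace Pool.Agent.MP_96f5a9_co.H47

variable {x a b n m : ℕ}

theorem bmul (h : a ≤ x ^ n) (k : b ≤ x ^ m) : a * b ≤ x ^ (n + m) :=
  pow_add x n m ▸ Nat.mul_le_mul h k

theorem bup (hx : 2 ≤ x) (h : a ≤ x ^ n) (k : n ≤ m) : a ≤ x ^ m :=
  h.trans (Nat.pow_le_pow_right (by omega) k)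

theorem badd (hx : 2 ≤ x) (h : a ≤ x ^ n) (k : b ≤ x ^ m) : a + b ≤ x ^ (max n m + 1) := by
  have h1 := bup hx h (le_max_left n m)
  have h2 := bup hx k (le_max_right n m)
  have h3 := Nat.mul_le_mul_left (x ^ max n m) hx
  rw [pow_succ]
  omega

theorem bpow (h : a ≤ x ^ n) (k : ℕ) : a ^ k ≤ x ^ (n * k) :=
  pow_mul x n k ▸ Nat.pow_le_pow_left h k

theorem bone (h : a ≤ x) : a ≤ x ^ 1 := by rwa [pow_one]

theorem btwo (h : a ≤ x ^ n) : a ≤ 2 ^ (x * n) :=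
  h.trans (pow_mul 2 x n ▸ Nat.pow_le_pow_left Nat.lt_two_pow_self.le n)

theorem dense_le {u n R N Q A K : ℕ} (hu : 10 ^ 5 ≤ u) (hn : n ≤ u) (hR : R ≤ u)
    (hN : N = 10 ^ 4 * n ^ 2 * (5 * n ^ 2)) (hQ : Q = 24 * n * N) (hA : A = (R * n) ^ n)
    (hK : K = 4 * n * A * N + (n + 20 * n * (n + 1))) :
    K ^ (7 * n ^ 2) + 1 + 12 * N * n * A + 4 * Q + 2 * ((3 + Q) * n) +
      2 * (4 * n + 5 + 2 * Q) + 10 ^ 3 * n ^ 2 ≤ 2 ^ u ^ 5 := by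
  have u2 : 2 ≤ u := by omega
  have n1 := bone hn
  have c : ∀ c : ℕ, c ≤ 10 ^ 5 → c ≤ u ^ 1 := fun c h => bone (h.trans hu)
  have N1 : N ≤ u ^ 6 :=
    hN ▸ bmul (bmul (c _ (by norm_num)) (bpow n1 2)) (bmul (c _ (by norm_num)) (bpow n1 2))
  have Q1 : Q ≤ u ^ 8 := hQ ▸ bmul (bmul (c _ (by norm_num)) n1) N1
  have A1 : A ≤ u ^ (2 * u) := hA ▸ bup u2 (bpow (bmul (bone hR) n1) n) (by omega)
  obtain ⟨v, hv⟩ : ∃ v, v = u ^ (2 * u) := ⟨_, rfl⟩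
  have uv : u ≤ v := hv ▸ Nat.le_self_pow (by omega) u
  have v2 : 2 ≤ v := u2.trans uv
  have N2 : N ≤ v ^ 1 := bone (hv ▸ bup u2 N1 (by omega))
  have Q2 : Q ≤ v ^ 1 := bone (hv ▸ bup u2 Q1 (by omega))
  have A2 : A ≤ v ^ 1 := bone (hv ▸ A1)
  have n2 : n ≤ v ^ 1 := bone (hn.trans uv)
  have d : ∀ c : ℕ, c ≤ 10 ^ 5 → c ≤ v ^ 1 := fun c h => bone ((h.trans hu).trans uv)
  have K1 : K ≤ v ^ 6 := hK ▸ badd v2 (bmul (bmul (bmul (d _ (by norm_num)) n2) A2) N2)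
    (badd v2 n2 (bmul (bmul (d _ (by norm_num)) n2) (badd v2 n2 (d 1 (by norm_num)))))
  have s1 : n ^ 2 ≤ u ^ 2 := Nat.pow_le_pow_left hn 2
  have s2 : u ≤ u ^ 2 := Nat.le_self_pow (by norm_num) u
  have t1 : K ^ (7 * n ^ 2) ≤ v ^ (42 * u ^ 2) := bup v2 (bpow K1 _) (by omega)
  have t2 := bmul (bmul (bmul (d 12 (by norm_num)) N2) n2) A2
  have t3 := bmul (d 4 (by norm_num)) Q2
  have t4 := bmul (d 2 (by norm_num)) (bmul (badd v2 (d 3 (by norm_num)) Q2) n2)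
  have t5 := bmul (d 2 (by norm_num)) (badd v2 (badd v2 (bmul (d 4 (by norm_num)) n2)
    (d 5 (by norm_num))) (bmul (d 2 (by norm_num)) Q2))
  have t6 := bmul (d (10 ^ 3) (by norm_num)) (bpow n2 2)
  have t7 := bup v2 (badd v2 (badd v2 (badd v2 (badd v2 (badd v2 (badd v2 t1 (d 1 (by norm_num)))
    t2) t3) t4) t5) t6) (m := 43 * u ^ 2) (by omega)
  rw [hv, ← pow_mul] at t7
  refine (btwo t7).trans (Nat.pow_le_pow_right two_pos ?_)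
  calc u * (2 * u * (43 * u ^ 2)) = 86 * u ^ 4 := by ring
    _ ≤ u * u ^ 4 := Nat.mul_le_mul_right _ (by omega)
    _ = _ := by ring

theorem top_le {u k R : ℕ} (hu : 10 ^ 5 ≤ u) (hk : k + 1 ≤ u) (hR : R ≤ u) :
    (R * (k + 1)) ^ (k + 1) * 2 ^ k + 100 ≤ 2 ^ u ^ 5 := by
  have u2 : 2 ≤ u := by omega
  have t := bup u2 (badd u2 (bmul (bpow (bmul (bone hR) (bone hk)) (k + 1))
    (bpow (bone u2) k)) (bone (show 100 ≤ u by omega))) (m := 4 * u) (by omega)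
  refine (btwo t).trans (Nat.pow_le_pow_right two_pos ?_)
  calc u * (4 * u) = 4 * u ^ 2 := by ring
    _ ≤ u ^ 3 * u ^ 2 := Nat.mul_le_mul_right _
        ((show 4 ≤ u by omega).trans (Nat.le_self_pow (by norm_num) u))
    _ = _ := by ring

/-- The tower of the constants. -/
theorem tower {Q A t k K G E R D B : ℕ} (hQ : 2 ^ 193 ≤ Q) (hA : A = 64 * 2 ^ Q) (ht : t = A * Q)
    (hk : k = Q * ((3 * A * t ^ 2 + 3 * A) * (2 * t + 2)))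
    (hK : K = 2 ^ 82 * (2 * k * (2 ^ 27 + 1))) (hG : G = 2 ^ 22 * ((2 ^ 27 + 1) * (K + 1) ^ 2))
    (hE : E = 294912 * K ^ 3) (hR : R = 2 * (2 ^ 27 + 1) * E)
    (hD : D = 144 * ((G * (R + 1) ^ R) ^ 3 * E ^ 3) + R + (2 * t + 2) + 1 + 2 ^ 82 * (2 * k + 1))
    (hB : B = 96 * (4 * D + 32 * D * 2 ^ 27)) :
    ∃ u, 10 ^ 5 ≤ u ∧ 2 * k ≤ u ∧ 128 * (K + 1) ≤ u ∧ 3 * E + 1 ≤ u ∧ B + 8 * D + 9 ≤ u ∧
      8 * (3 + 24 * (B + 8 * D + 9) * (10 ^ 4 * (B + 8 * D + 9) ^ 2 *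
        (5 * (B + 8 * D + 9) ^ 2))) ≤ u ∧ u ^ 5 ≤ 2 ^ 2 ^ (100 * Q) := by
  obtain ⟨x, hx⟩ : ∃ x, x = 2 ^ Q := ⟨_, rfl⟩
  have Qx : Q ≤ x := hx ▸ Nat.lt_two_pow_self.le
  rw [← hx] at hA
  have x2 : 2 ≤ x := by omega
  have c : ∀ c : ℕ, c ≤ 2 ^ 193 → c ≤ x ^ 1 := fun c h => bone ((h.trans hQ).trans Qx)
  have Q1 := bone Qx
  have A1 : A ≤ x ^ 2 := hA ▸ bmul (c _ (by norm_num)) (bone le_rfl)
  have t1 : t ≤ x ^ 3 := ht ▸ bmul A1 Q1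
  have t2 : 2 * t + 2 ≤ x ^ 5 := badd x2 (bmul (c _ (by norm_num)) t1) (c _ (by norm_num))
  have a3 := bmul (c 3 (by norm_num)) A1
  have k1 : k ≤ x ^ 16 := hk ▸ bmul Q1 (bmul (badd x2 (bmul a3 (bpow t1 2)) a3) t2)
  have k2 : 2 * k ≤ x ^ 17 := bmul (c _ (by norm_num)) k1
  have K1 : K ≤ x ^ 19 := hK ▸ bmul (c _ (by norm_num)) (bmul k2 (c _ (by norm_num)))
  have K2 : K + 1 ≤ x ^ 20 := badd x2 K1 (c _ (by norm_num))
  have G1 : G ≤ x ^ 42 := hG ▸ bmul (c _ (by norm_num)) (bmul (c _ (by norm_num)) (bpow K2 2))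
  have E1 : E ≤ x ^ 58 := hE ▸ bmul (c _ (by norm_num)) (bpow K1 3)
  have R1 : R ≤ x ^ 59 := hR ▸ bmul (c _ (by norm_num)) E1
  have R2 : R + 1 ≤ x ^ 60 := badd x2 R1 (c _ (by norm_num))
  obtain ⟨y, hy⟩ : ∃ y, y = 2 ^ x ^ 61 := ⟨_, rfl⟩
  have xy : ∀ {a n : ℕ}, a ≤ x ^ n → n ≤ 61 → a ≤ y ^ 1 := fun h k =>
    bone ((bup x2 h k).trans (hy ▸ Nat.lt_two_pow_self.le))
  have y2 : 2 ≤ y := by simpa using xy (bone x2) (by norm_num)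
  have d : ∀ a : ℕ, a ≤ 2 ^ 193 → a ≤ y ^ 1 := fun a h => xy (c a h) (by norm_num)
  have R3 : (R + 1) ^ R ≤ y ^ 1 := by
    refine bone ((btwo (bpow R2 R)).trans (hy ▸ Nat.pow_le_pow_right two_pos ?_))
    exact bmul (bone le_rfl) (bmul (c 60 (by norm_num)) R1)
  have D1 : D ≤ y ^ 14 := hD ▸ badd y2 (badd y2 (badd y2 (badd y2
    (bmul (d _ (by norm_num)) (bmul (bpow (bmul (xy G1 (by norm_num)) R3) 3)
      (bpow (xy E1 (by norm_num)) 3))) (xy R1 (by norm_num))) (xy t2 (by norm_num)))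
      (d 1 (by norm_num)))
    (xy (bmul (c _ (by norm_num)) (badd x2 k2 (c 1 (by norm_num)))) (by norm_num))
  have B1 : B ≤ y ^ 18 := hB ▸ bmul (d _ (by norm_num)) (badd y2 (bmul (d 4 (by norm_num)) D1)
    (bmul (bmul (d 32 (by norm_num)) D1) (d _ (by norm_num))))
  have B2 : B + 8 * D + 9 ≤ y ^ 20 :=
    badd y2 (badd y2 B1 (bmul (d 8 (by norm_num)) D1)) (d 9 (by norm_num))
  generalize B + 8 * D + 9 = κ at *
  refine ⟨y ^ 105, bup y2 (d _ (by norm_num)) (by norm_num),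
    bup y2 (xy k2 (by norm_num)) (by norm_num),
    bup y2 (xy (bmul (c _ (by norm_num)) K2) (by norm_num)) (by norm_num),
    bup y2 (xy (badd x2 (bmul (c 3 (by norm_num)) E1) (c 1 (by norm_num))) (by norm_num))
      (by norm_num), bup y2 B2 (by norm_num),
    bmul (d 8 (by norm_num)) (badd y2 (d 3 (by norm_num)) (bmul (bmul (d 24 (by norm_num)) B2)
      (bmul (bmul (d _ (by norm_num)) (bpow B2 2)) (bmul (d 5 (by norm_num)) (bpow B2 2))))), ?_⟩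
  rw [← pow_mul, hy, ← pow_mul, mul_comm 100 Q, pow_mul 2 Q, ← hx]
  exact Nat.pow_le_pow_right two_pos
    (bup x2 (bmul (le_refl (x ^ 61)) (c _ (by norm_num))) (by norm_num))

theorem pow_le_of_log {a e : ℕ} (h : a ≤ Nat.log 2 e) (ha : 0 < a) : 2 ^ a ≤ e :=
  Nat.pow_le_of_le_log (by rintro rfl; simp at h; omega) h

/-- A number with a large iterated logarithm is above the tower. -/
theorem above {F : ℕ}
    (h : 200 ≤ Nat.log 2 (Nat.log 2 (Nat.log 2 (Nat.log 2 (Nat.log 2 F))))) :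
    ∃ Q, 2 ^ 193 ≤ Q ∧ ∀ e ≤ 2 ^ 2 ^ 2 ^ (100 * Q), (2 ^ 36 * e ^ 5) ^ (e + 1) ≤ F := by
  have h1 := pow_le_of_log h (by norm_num)
  obtain ⟨c, hc⟩ : ∃ c, c = Nat.log 2 (Nat.log 2 (Nat.log 2 (Nat.log 2 F))) := ⟨_, rfl⟩
  rw [← hc] at h1
  have h2 := pow_le_of_log hc.le (by omega)
  have h3 := pow_le_of_log h2 (Nat.two_pow_pos c)
  have h4 := pow_le_of_log h3 (Nat.two_pow_pos _)
  have h5 := pow_le_of_log h4 (Nat.two_pow_pos _)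
  obtain ⟨q, hq⟩ : ∃ q, q = 100 * (c / 128) := ⟨_, rfl⟩
  refine ⟨c / 128, by omega, fun e he => le_trans ?_ h5⟩
  rw [← hq] at he
  obtain ⟨w, hw⟩ : ∃ w, w = 2 ^ 2 ^ q := ⟨_, rfl⟩
  have w1 : q ≤ w := hw ▸ (Nat.lt_two_pow_self.trans Nat.lt_two_pow_self).le
  have w2 : w * w ≤ 2 ^ 2 ^ c := by
    rw [hw, ← pow_add, ← mul_two, ← pow_succ]
    exact Nat.pow_le_pow_right two_pos (Nat.pow_le_pow_right two_pos (by omega))
  rw [← hw] at he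
  obtain ⟨T, hT⟩ : ∃ T, T = 2 ^ w := ⟨_, rfl⟩
  have w3 : w ≤ T := hT ▸ Nat.lt_two_pow_self.le
  rw [← hT] at he
  have T2 : 2 ≤ T := by omega
  have t1 := bpow (bmul (bone (show 2 ^ 36 ≤ T by omega)) (bpow (bone he) 5)) (e + 1)
  have t2 := bmul (bone (le_refl T)) (bmul (bone (show 1 + 1 * 5 ≤ T by omega))
    (badd T2 (bone he) (bone (show 1 ≤ T by omega))))
  refine (btwo t1).trans (Nat.pow_le_pow_right two_pos (t2.trans ?_))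
  rw [hT, ← pow_mul]
  exact Nat.pow_le_pow_right two_pos ((Nat.mul_le_mul_left w (by omega)).trans w2)

end Pool.Agent.MP_96f5a9_co.H47
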