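import Pool.Agent.MP_96f5a9_co.h47.Cases
import Pool.Agent.MP_96f5a9_co.h47.Tower

/-! Wilf's inequality above an explicit bound. -/

set_option autoImplicit false

namespace Pool.Agent.MP_96f5a9_co.H47

open Finset H51 H16 H59 H80 WA

theorem xdense (n R N Q A K : ℕ) (hn : 3 ≤ n) (hN : N = 10 ^ 4 * n ^ 2 * (5 * n ^ 2))
    (hQ : Q = 24 * n * N) (hR : 8 * (3 + Q) ≤ R) (hA : A = (R * n) ^ n)
    (hK : K = 4 * n * A * N + (n + 20 * n * (n + 1)))
    (ι : Type) [Fintype ι] [DecidableEq ι] (g : ι → ℕ) (T : Finset (ι → ℕ))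
    (m F : ℕ) (M : Md g T m F)
    (hp : K ^ (7 * n ^ 2) + 1 + 12 * N * n * A + 4 * Q + 2 * ((3 + Q) * n) +
      2 * (4 * n + 5 + 2 * Q) + 10 ^ 3 * n ^ 2 ≤ Fintype.card ι)
    (h0 : (n + Fintype.card ι / R).choose (Fintype.card ι / R) ≤
      (T.filter fun z => dg z = n).card)
    (h1 : (T.filter fun z => dg z = n + 1).card <
      (n + 1 + Fintype.card ι / R).choose (Fintype.card ι / R)) :
    F + 1 ≤ (Fintype.card ι + 1) * ∑ x ∈ T, (F + m - wt g x) / m := by
  have hc : CoreStmt := core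
  have hd : DomStmt := dom exch
  have he : DeadStmt := dead
  by_contra hW
  obtain ⟨p, hp'⟩ : ∃ p, p = Fintype.card ι := ⟨_, rfl⟩
  obtain ⟨x, hx⟩ : ∃ x, x = p / R := ⟨_, rfl⟩
  have hR0 : 0 < R := by omega
  have hRx : R * x ≤ p := hx ▸ Nat.mul_div_le p R
  have hn2 : 9 ≤ n ^ 2 := by nlinarith
  have hN0 : 10 ^ 3 ≤ N := by rw [hN]; nlinarith
  have hQ0 : 72 * N ≤ Q := by rw [hQ]; nlinarith
  have hA0 : 0 < A := by rw [hA]; positivity
  rw [← hp'] at hp hW
  rw [← hp', ← hx] at h0 h1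
  have c0 : 8 * (3 + Q) * x ≤ p := (Nat.mul_le_mul_right _ hR).trans hRx
  have c1 : (3 + Q) * (2 * x + n) + p / 4 ≤ Fintype.card ι := by
    have : (3 + Q) * (2 * x + n) * 4 = 8 * (3 + Q) * x + 4 * ((3 + Q) * n) := by ring
    omega
  have c2 : 3 * x + 4 * n + 5 + 2 * Q + p / 4 ≤ Fintype.card ι := by
    have : 8 * (3 + Q) * x = 24 * x + 8 * (Q * x) := by ring
    omega
  have C := core' hc M n x (p / 4) Q hn h1 c1 c2
  have ed := edges M n
  have lo := low_le M.down n (by omega)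
  have lv := level_le M.down n
  have pw := pow_le_choose p R n hR0
  rw [← hp'] at C ed lo lv
  rw [← hx, ← hA] at pw
  set Y := T.filter fun y => dg y + 1 = n ∧ wt g y ≤ F with hY
  set Z := T.filter fun z => F < wt g z ∧ dg z = n with hZ
  set Hh := T.filter fun z => n < dg z
  set U := T.filter fun y => n ≤ dg y ∧ wt g y ≤ F
  set Lo := T.filter fun z => dg z < n
  set Tn := T.filter fun z => dg z = n
  have mT := M.card
  have m0 := M.pos
  have tm : Tn.card ≤ m := mT ▸ card_filter_le _ _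
  have s1 : m ≤ Lo.card + Z.card + U.card + Hh.card := by
    refine mT.symm.le.trans ((card_le_card (t := Lo ∪ Z ∪ U ∪ Hh) fun z hz => ?_).trans ?_)
    · simp only [Lo, Z, U, Hh, mem_union, mem_filter, hz, true_and]
      omega
    · exact (card_union_le _ _).trans (Nat.add_le_add_right ((card_union_le _ _).trans
        (Nat.add_le_add_right (card_union_le _ _) _)) _)
  have s2 : m ≤ Lo.card + Tn.card + Hh.card := by
    refine mT.symm.le.trans ((card_le_card (t := Lo ∪ Tn ∪ Hh) fun z hz => ?_).trans ?_)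
    · simp only [Lo, Tn, Hh, mem_union, mem_filter, hz, true_and]
      omega
    · exact (card_union_le _ _).trans (Nat.add_le_add_right (card_union_le _ _) _)
  have s3 : (T.filter fun y => wt g y ≤ F).card ≤ Lo.card + U.card := by
    refine (card_le_card (t := Lo ∪ U) fun z hz => ?_).trans (card_union_le _ _)
    obtain ⟨b1, b2⟩ := mem_filter.1 hz
    simp only [Lo, U, mem_union, mem_filter, b1, true_and]
    omega
  -- the crude application
  have k0 : Q * Hh.card + p / 4 * U.card ≤ 2 * n * m := by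
    have b1 : ∑ j : Fin n, (Pi.single (⟨0, by omega⟩ : Fin n) (F + 1) : Fin n → ℕ) j = F + 1 := by
      simp
    have := C (Pi.single (⟨0, by omega⟩ : Fin n) (F + 1)) ∅ (by omega) (empty_subset _) (by simp)
    rw [b1, sdiff_empty, mT] at this
    omega
  have pm : p ^ n ≤ A * m := pw.trans (Nat.mul_le_mul_left _ (h0.trans tm))
  have k1 : 12 * N * Hh.card ≤ m := by
    refine Nat.le_of_mul_le_mul_left (c := 2 * n) ?_ (by omega)
    calc 2 * n * (12 * N * Hh.card) = Q * Hh.card := by rw [hQ]; ring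
      _ ≤ _ := by omega
  have k2 : 12 * N * U.card ≤ m := by
    refine Nat.le_of_mul_le_mul_left (c := 2 * n) ?_ (by omega)
    calc 2 * n * (12 * N * U.card) = Q * U.card := by rw [hQ]; ring
      _ ≤ p / 4 * U.card := Nat.mul_le_mul_right _ (by omega)
      _ ≤ _ := by omega
  have k3 : 12 * N * Lo.card ≤ m := by
    refine Nat.le_of_mul_le_mul_left (c := n * A) ?_ (by positivity)
    calc n * A * (12 * N * Lo.card) = 12 * N * n * A * Lo.card := by ring
      _ ≤ p * Lo.card := Nat.mul_le_mul_right _ (by omega)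
      _ ≤ n * (A * m) := lo.trans (Nat.mul_le_mul_left _ pm)
      _ = _ := by ring
  have k4 : 12 * N * n ≤ m := by
    refine Nat.le_of_mul_le_mul_left (c := A) ?_ hA0
    calc A * (12 * N * n) = 12 * N * n * A := by ring
      _ ≤ p := by omega
      _ ≤ p ^ n := Nat.le_self_pow (by omega) _
      _ ≤ _ := pm
  have k5 : m ≤ 2 * p ^ n := by
    have b1 : 12 * 1 * Hh.card ≤ 12 * N * Hh.card := by gcongr; omega
    have b2 : 12 * 1 * Lo.card ≤ 12 * N * Lo.card := by gcongr; omega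
    omega
  obtain ⟨E, hE⟩ : ∃ E, E = m / (10 ^ 4 * n ^ 2) := ⟨_, rfl⟩
  obtain ⟨d, hd'⟩ : ∃ d, d = E / (5 * n ^ 2) := ⟨_, rfl⟩
  have e1 : 10 ^ 4 * n ^ 2 * E ≤ m := hE ▸ Nat.mul_div_le _ _
  have e2 : 5 * n ^ 2 * d ≤ E := hd' ▸ Nat.mul_div_le _ _
  have e3 : m < N * (d + 1) := by
    rw [hd', hE, Nat.div_div_eq_div_mul, ← hN]
    exact Nat.lt_mul_div_succ m (by omega)
  have k6 : N * 1 ≤ N * n := Nat.mul_le_mul_left _ (by omega)
  have k7 : 12 * N * n = 12 * (N * n) := by ring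
  have e4 : m ≤ 2 * (N * d) := by
    rcases Nat.eq_zero_or_pos d with c | c
    · rw [c] at e3
      omega
    · have : N * 1 ≤ N * d := Nat.mul_le_mul_left _ c
      rw [mul_add] at e3
      omega
  have e5 : 2 * (Lo.card + U.card + Hh.card) ≤ d := by
    refine Nat.le_of_mul_le_mul_left (c := 6 * N) ?_ (by omega)
    calc 6 * N * (2 * (Lo.card + U.card + Hh.card)) =
          12 * N * Lo.card + 12 * N * U.card + 12 * N * Hh.card := by ring
      _ ≤ 6 * (N * d) := by omega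
      _ = _ := by ring
  have e6 : 3 * (n * d) ≤ n ^ 2 * d := by
    rw [← mul_assoc, sq]
    gcongr
  have e7 : 3 * d ≤ n * d := Nat.mul_le_mul_right _ hn
  have e8 : 9 * E ≤ n ^ 2 * E := Nat.mul_le_mul_right _ hn2
  rw [mul_assoc] at e1 e2
  have e9 : 2 * n * p ^ n ≤ K * d := by
    calc 2 * n * p ^ n ≤ 2 * n * (A * (2 * (N * d))) :=
          Nat.mul_le_mul_left _ (pm.trans (Nat.mul_le_mul_left _ e4))
      _ = 4 * n * A * N * d := by ring
      _ ≤ _ := Nat.mul_le_mul_right _ (by omega)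
  have e10 : p * (T.filter fun y => wt g y ≤ F).card ≤ K * p ^ n := by
    have b1 : p * U.card ≤ 5 * (p / 4) * U.card := Nat.mul_le_mul_right _ (by omega)
    have b2 : 2 * n * m ≤ 2 * n * (2 * p ^ n) := Nat.mul_le_mul_left _ k5
    calc _ ≤ p * Lo.card + p * U.card := by
          rw [← mul_add]
          exact Nat.mul_le_mul_left _ s3
      _ ≤ n * p ^ n + 5 * (2 * n * (2 * p ^ n)) := by
          rw [mul_assoc] at b1
          omega
      _ = (n + 20 * n * 1) * p ^ n := by ring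
      _ ≤ _ := by
          refine Nat.mul_le_mul_right _ ?_
          have : 20 * n * 1 ≤ 20 * n * (n + 1) := Nat.mul_le_mul_left _ (by omega)
          omega
  obtain ⟨gs, G, g1, g2, g3, g4, g5⟩ := hd ι g T m F n d d K Z M (by omega) (filter_subset _ _)
    (fun z hz => (mem_filter.1 hz).2) (by omega) (by omega) (by omega) (hp' ▸ e9)
    (by
      rw [← hp']
      exact (Nat.le_mul_of_pos_left _ (by omega)).trans e9)
    (hp' ▸ e10) (by omega)
  have gT : G ⊆ T := g1.trans (filter_subset _ _)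
  have f1 := C gs G g4 gT g3
  have f2 := he ι g Y Z m F n E hn
    (fun z hz => ⟨(mem_filter.1 hz).2.2, (mem_filter.1 hz).2.1, M.top z (mem_filter.1 hz).1⟩)
    (fun z hz z' hz' e => M.inj z (mem_filter.1 hz).1 z' (mem_filter.1 hz').1 (e ▸ rfl))
    (fun y hy => (mem_filter.1 hy).2.1)
    (fun z hz i hi => by
      obtain ⟨b1, -, b2⟩ := mem_filter.1 hz
      have b3 := dg_sub hi
      exact mem_filter.2 ⟨down_ee M.down b1 i, by omega,
        nontop M (i := i) (by rwa [sub_add_ee hi])⟩)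
    (by omega) (by rw [mul_assoc]; exact e1) (by omega)
    (by
      have : 10 ^ 3 * n ≤ N * n := Nat.mul_le_mul_right _ hN0
      omega)
  rw [← hp'] at f2
  have f3 : (T \ G).card ≤ d + n * d := by
    rw [card_sdiff_of_subset gT]
    omega
  have f4 : n * Tn.card ≤ n * (Z.card + d) := Nat.mul_le_mul_left _ (by omega)
  have f5 : 2 * n * (T \ G).card ≤ 2 * n * (d + n * d) := Nat.mul_le_mul_left _ f3
  have f6 : 2 * n * (d + n * d) = 2 * (n * d) + 2 * (n ^ 2 * d) := by ring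
  rw [mul_add] at f4
  omega

/-- Multiplicity polynomial in the number of generators. -/
theorem xmain (k0 k R u : ℕ) (hk : k = k0 + 3)
    (hR : R = 8 * (3 + 24 * k * (10 ^ 4 * k ^ 2 * (5 * k ^ 2)))) (hu : 10 ^ 5 ≤ u)
    (hku : k + 1 ≤ u) (hRu : R ≤ u)
    (ι : Type) [Fintype ι] [DecidableEq ι] (g : ι → ℕ) (T : Finset (ι → ℕ))
    (m F : ℕ) (M : Md g T m F) (hP : 2 ^ u ^ 5 ≤ Fintype.card ι)
    (hm : m ≤ (Fintype.card ι + 1) ^ k0) : Wilf g T m F := by
  have hp := (top_le hu hku hRu).trans hP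
  unfold Wilf
  obtain ⟨p, hp'⟩ : ∃ p, p = Fintype.card ι := ⟨_, rfl⟩
  have hR0 : 24 ≤ R := by omega
  have hx : 24 * (p / R) ≤ p := (Nat.mul_le_mul_right _ hR0).trans (Nat.mul_div_le p R)
  by_cases c : (T.filter fun z => dg z = 3).card < (3 + p / R).choose (p / R)
  · refine wilf_ideal g T m F M.pos M.le M.down M.card M.inj M.top (Or.inr (c.trans_le ?_))
    rw [← Nat.choose_symm_add]
    exact Nat.choose_le_choose _ (by omega)
  have top : (T.filter fun z => dg z = k + 1).card < (k + 1 + p / R).choose (p / R) := by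
    by_contra c'
    have b1 := pow_le_choose p R (k + 1) (by omega)
    have b2 : (k + 1 + p / R).choose (p / R) ≤ (2 * p) ^ k := by
      refine (not_lt.1 c').trans ((card_filter_le _ _).trans (M.card.le.trans (hm.trans ?_)))
      exact (Nat.pow_le_pow_right (by omega) (by omega)).trans (Nat.pow_le_pow_left (by omega) _)
    have b3 := b1.trans (Nat.mul_le_mul_left _ b2)
    rw [mul_pow 2, ← mul_assoc, pow_succ'] at b3
    have := Nat.le_of_mul_le_mul_right b3 (by apply pow_pos; omega)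
    omega
  let Pr : ℕ → Prop := fun D => (D + p / R).choose (p / R) ≤ (T.filter fun z => dg z = D).card
  have f1 : 3 ≤ Nat.findGreatest Pr k := Nat.le_findGreatest (by omega) (not_lt.1 c)
  have f2 : Nat.findGreatest Pr k ≤ k := Nat.findGreatest_le k
  have f3 : Pr (Nat.findGreatest Pr k) := Nat.findGreatest_spec (m := 3) (by omega) (not_lt.1 c)
  have f4 : ¬ Pr (Nat.findGreatest Pr k + 1) := by
    rcases f2.eq_or_lt with e | e
    · rw [e]
      exact not_le.2 top
    · exact Nat.findGreatest_is_greatest (Nat.lt_succ_self _) e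
  subst hp'
  generalize Nat.findGreatest Pr k = n at f1 f2 f3 f4
  exact xdense n R _ _ _ _ f1 rfl rfl (by rw [hR]; gcongr) rfl rfl ι g T m F M
    ((dense_le hu (by omega) hRu rfl rfl rfl rfl).trans hP) f3 (not_le.1 f4)

/-- Wilf's inequality for ideals with a tower of generators. -/
theorem xall (Q : ℕ) (hQ : 2 ^ 193 ≤ Q)
    (ι : Type) [Fintype ι] [DecidableEq ι] (g : ι → ℕ) (T : Finset (ι → ℕ))
    (m F : ℕ) (h : Md g T m F) (hP : 2 ^ 2 ^ 2 ^ (100 * Q) ≤ Fintype.card ι) : Wilf g T m F := by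
  obtain ⟨A, hA⟩ : ∃ A, A = 64 * 2 ^ Q := ⟨_, rfl⟩
  obtain ⟨t, ht⟩ : ∃ t, t = A * Q := ⟨_, rfl⟩
  obtain ⟨k, hk⟩ : ∃ k, k = Q * ((3 * A * t ^ 2 + 3 * A) * (2 * t + 2)) := ⟨_, rfl⟩
  obtain ⟨K, hK⟩ : ∃ K, K = 2 ^ 82 * (2 * k * (2 ^ 27 + 1)) := ⟨_, rfl⟩
  obtain ⟨G, hG⟩ : ∃ G, G = 2 ^ 22 * ((2 ^ 27 + 1) * (K + 1) ^ 2) := ⟨_, rfl⟩
  obtain ⟨E, hE⟩ : ∃ E, E = 294912 * K ^ 3 := ⟨_, rfl⟩
  obtain ⟨R, hR⟩ : ∃ R, R = 2 * (2 ^ 27 + 1) * E := ⟨_, rfl⟩
  obtain ⟨D, hD0⟩ : ∃ D, D = 144 * ((G * (R + 1) ^ R) ^ 3 * E ^ 3) + R + (2 * t + 2) + 1 +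
    2 ^ 82 * (2 * k + 1) := ⟨_, rfl⟩
  obtain ⟨B, hB⟩ : ∃ B, B = 96 * (4 * D + 32 * D * 2 ^ 27) := ⟨_, rfl⟩
  obtain ⟨u, u1, u2, u3, u4, u5, u6, u7⟩ := tower hQ hA ht hk hK hG hE hR hD0 hB
  have hp := (Nat.pow_le_pow_right two_pos u7).trans hP
  have up : u ≤ Fintype.card ι :=
    ((Nat.le_self_pow (by norm_num) u).trans Nat.lt_two_pow_self.le).trans hp
  clear u7 hP
  by_contra hW
  have hm : (Fintype.card ι + 1) ^ (B + 8 * D + 5) ≤ m := by
    have e : B + 8 * D + 5 + 3 ≤ B + 8 * D + 9 := Nat.le_succ _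
    exact (not_le.1 fun c => hW (xmain (B + 8 * D + 5) _ _ u rfl rfl u1 u5
      (le_trans (by gcongr) u6) ι g T m F h hp c)).le
  clear u6 hp
  have a1 : (Fintype.card ι + 1) ^ (B + 8 * D + 1 + 1) ≤ m :=
    (Nat.pow_le_pow_right (Nat.succ_pos _) (by omega)).trans hm
  have a2 : (Fintype.card ι + 1) ^ 3 ≤ m :=
    (Nat.pow_le_pow_right (Nat.succ_pos _) (by omega)).trans hm
  have a3 : 4 * Fintype.card ι ^ 2 ≤ m := by
    refine le_trans ?_ a2
    rw [pow_succ' _ 2]
    exact Nat.mul_le_mul (by omega) (Nat.pow_le_pow_left (by omega) _)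
  have a4 : Fintype.card ι ≤ m :=
    (Nat.le_self_pow two_ne_zero _).trans (le_trans (Nat.le_mul_of_pos_left _ four_pos) a3)
  have hc : F + m ≤ 2 ^ 27 * (Fintype.card ι * m) := by
    have := not_le.1 fun c => hW (H93.wilf_ideal g T m F h.pos (fun i => h.pos.trans_le (h.le i))
      h.down h.card h.inj h.top (by omega) a3 c)
    have b : (Fintype.card ι + 1) * m ≤ 2 * Fintype.card ι * m := Nat.mul_le_mul_right _ (by omega)
    linarith only [this, b]
  obtain ⟨s, hs⟩ := H93.exists_median g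
  have hD : D * s ≤ F + m :=
    (not_le.1 fun c => hW (xH _ D B hB ι g T m F s h (by omega) a1 hs hc c)).le
  have b : ∀ D', D' ≤ D → D' * s ≤ F + m := fun D' hD' => (Nat.mul_le_mul_right _ hD').trans hD
  have hA' : F + m ≤ K * ∑ i, Ad g T (F + m) m i := by
    rw [hK]
    refine gw (by omega) h.le h.down h.card h.inj h.top (by omega) hs.1 hs.2 (not_wilf hW).2 hc
      (b _ (hD0 ▸ Nat.le_add_left _ _)) ?_
    by_contra c
    rw [not_or, not_le, not_le] at c
    exact hW (xII _ Q A t k (le_trans (by norm_num) hQ) hA ht hk ι g T m F s h (by omega)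
      (by omega) hs hc (b _ (by omega)) c.1.le c.2.le)
  rcases le_total s (G * m) with c | c
  · exact hW (xI _ K G E R hE hR ι g T m F s h (by omega) a4 hs hc c (b _ (by omega)) hA')
  · exact hW (xIII _ K ι g T m F s h (by omega) a4 hs hc (hG ▸ c) (b _ (by omega)) hA')

open Classical in
/-- Wilf's inequality above an explicit Frobenius number. -/
theorem wilf_tower (S : AddSubmonoid ℕ) (F m : ℕ) (hF : ∀ x, F < x → x ∈ S) (hm0 : 0 < m)
    (hmS : m ∈ S) (hmin : ∀ x ∈ S, x ≠ 0 → m ≤ x)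
    (h : 200 ≤ Nat.log 2 (Nat.log 2 (Nat.log 2 (Nat.log 2 (Nat.log 2 F))))) :
    F + 1 ≤ (gens S).ncard * ((range (F + 1)).filter (· ∈ S)).card := by
  obtain ⟨Q, hQ, h0⟩ := above h
  rcases le_or_gt (gens S).ncard (2 ^ 2 ^ 2 ^ (100 * Q)) with c | c
  · refine wilf_large S F m hF hm0 hmS hmin ?_
    rcases le_total ((2 ^ 36 * (gens S).ncard ^ 5) ^ (gens S).ncard) m with d | d
    · exact Or.inr d
    · exact Or.inl (((Nat.mul_le_mul_left _ d).trans_eq (pow_succ' _ _).symm).trans (h0 _ c))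
  · obtain ⟨G, g, T, h1, h2, h3⟩ := exists_md S F m hF hm0 hmS hmin
    rw [h1] at c ⊢
    exact le_trans (xall Q hQ G g T m F h2 (Nat.le_of_lt_succ c)) (Nat.mul_le_mul_left _ h3)

end Pool.Agent.MP_96f5a9_co.H47
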